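import Pool.Agent.helper88.GR.Spec

/-!
# Project gr: module ERB (the error term)
-/

set_option autoImplicit false

open Complex Metric Set Filter Topology MeasureTheory
open MPS (om)
open PPS (pre TT fd)
open XPS (Df er dens tau)

noncomputable section

namespace GR

theorem ERB_TTsum (f : Polynomial ℂ) (z : ℂ) (s : Finset ℕ) (c : ℕ → ℂ) (g : ℕ → ℂ → ℂ) :
    TT f (fun w => ∑ j ∈ s, c j * g j w) z = ∑ j ∈ s, c j * TT f (g j) z := by
  classical
  induction s using Finset.induction_on with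
  | empty => simp [TT]
  | insert a s ha ih =>
    rw [Finset.sum_insert ha, ← ih]
    unfold TT
    rw [← Multiset.sum_map_mul_left, ← Multiset.sum_map_add]
    congr 1
    apply Multiset.map_congr rfl
    intro y _
    show (∑ j ∈ insert a s, c j * g j y) / fd f y ^ 2 =
      c a * (g a y / fd f y ^ 2) + (∑ j ∈ s, c j * g j y) / fd f y ^ 2
    rw [Finset.sum_insert ha]
    ring

/-- the contribution of the pole `Z j`. -/
def ERB_u (n : ℕ) (c z : ℂ) (j : ℕ) : ℂ :=
  1 / A n c j * (1 / (z - Z n c j) -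
    1 / ((n : ℂ) * Z n c j ^ (n - 1)) * (1 / (z - (Z n c j ^ n + c)) - 1 / (z - c)))

theorem ERB_pow (n : ℕ) (hn : 2 ≤ n) (y : ℂ) : y ^ n = y * y ^ (n - 1) := by
  obtain ⟨k, rfl⟩ : ∃ k, n = k + 1 := ⟨n - 1, by omega⟩
  rw [Nat.add_sub_cancel, pow_succ']

theorem ERB_alg (n : ℕ) (hn : 2 ≤ n) (c z y a : ℂ) (ha : a ≠ 0) (hy : y ≠ 0) (hz : z ≠ c)
    (h1 : z ≠ y) (h2 : z ≠ y ^ n + c) :
    1 / a * (1 / (z - y) - 1 / ((n : ℂ) * y ^ (n - 1)) * (1 / (z - (y ^ n + c)) - 1 / (z - c))) =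
      1 / a / (z - c) - y / ((n : ℂ) * a) / ((z - c) * (z - c - y ^ n)) +
        (y - c) / a / ((z - c) * (z - y)) := by
  have hn0 : (n : ℂ) ≠ 0 := by
    have : n ≠ 0 := by omega
    exact_mod_cast this
  have e1 : z - c ≠ 0 := sub_ne_zero.2 hz
  have e2 : z - y ≠ 0 := sub_ne_zero.2 h1
  have e3 : z - c - y ^ n ≠ 0 := by
    intro h
    apply h2
    linear_combination h
  have e4 : z - (y ^ n + c) = z - c - y ^ n := by ring
  have e5 : y ^ (n - 1) ≠ 0 := pow_ne_zero _ hy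
  rw [e4]
  have h3 : 1 / ((n : ℂ) * y ^ (n - 1)) * (1 / (z - c - y ^ n) - 1 / (z - c)) =
      y / (n : ℂ) / ((z - c) * (z - c - y ^ n)) := by
    have : 1 / (z - c - y ^ n) - 1 / (z - c) = y ^ n / ((z - c) * (z - c - y ^ n)) := by
      rw [div_sub_div _ _ e3 e1, div_eq_div_iff (mul_ne_zero e3 e1) (mul_ne_zero e1 e3)]
      ring
    rw [this, ERB_pow n hn y]
    have e6 : z - c - y * y ^ (n - 1) ≠ 0 := by
      rw [← ERB_pow n hn y]; exact e3
    generalize y ^ (n - 1) = t at e5 e6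
    field_simp
  rw [h3]
  generalize y ^ n = t at e3
  field_simp
  ring

theorem ERB_E (hNAT : NAT_stmt) (n : ℕ) (c : ℂ) (p q : ℕ) (hR : Ret n c p q) (z : ℂ) (hz : z ≠ c)
    (hZ : ∀ j, 1 ≤ j → j ≤ p + 1 → z ≠ Z n c j) (m : ℕ) (hm : 1 ≤ m) (hmp : m ≤ p) :
    ∑ j ∈ Finset.Icc 1 m, ERB_u n c z j = S n c m / (z - c) -
      Z n c m / ((n : ℂ) * A n c m) / ((z - c) * (z - c - Z n c m ^ n)) := by
  obtain ⟨-, -, -, hZs, -, hZ1, hA1, hS1, hAs, hSs, hr⟩ := hNAT n c hR.hn
  obtain ⟨-, -, -, -, hA0, -, -⟩ := hr p q hR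
  have hn0 : (n : ℂ) ≠ 0 := by
    have := hR.hn
    have : n ≠ 0 := by omega
    exact_mod_cast this
  induction m, hm using Nat.le_induction with
  | base =>
    have hne := hZ 2 (by omega) (by omega)
    rw [hZs 1] at hne
    have h := ERB_alg n hR.hn c z (Z n c 1) (A n c 1) (hA0 1 le_rfl (by omega))
      (hR.ne0 1 le_rfl hmp) hz (hZ 1 le_rfl (by omega)) hne
    rw [Finset.Icc_self, Finset.sum_singleton, ERB_u, h, hZ1, hA1, hS1]
    simp
  | succ m hm ih =>
    have ih' := ih (by omega)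
    have hne := hZ (m + 1 + 1) (by omega) (by omega)
    rw [hZs (m + 1)] at hne
    have h := ERB_alg n hR.hn c z (Z n c (m + 1)) (A n c (m + 1)) (hA0 (m + 1) (by omega) (by omega))
      (hR.ne0 (m + 1) (by omega) hmp) hz (hZ (m + 1) (by omega) (by omega)) hne
    rw [Finset.sum_Icc_succ_top (by omega), ih', ERB_u, h, hSs m]
    have hy : Z n c (m + 1) - c = Z n c m ^ n := by rw [hZs m]; ring
    have hzy : z - Z n c (m + 1) = z - c - Z n c m ^ n := by rw [hZs m]; ring
    rw [hy, hzy]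
    have hD : Z n c m / ((n : ℂ) * A n c m) = Z n c m ^ n / A n c (m + 1) := by
      have hZm : Z n c m ^ (n - 1) ≠ 0 := pow_ne_zero _ (hR.ne0 m hm (by omega))
      have hAm := hA0 m hm (by omega)
      rw [hAs m hm, ERB_pow n hR.hn (Z n c m)]
      generalize Z n c m ^ (n - 1) = t at hZm
      field_simp
    rw [hD]
    ring

theorem ERB (hNAT : NAT_stmt) (hTSP : TSP_stmt) : ERB_stmt := by
  intro n c p q hR z hz hZ
  obtain ⟨-, -, -, hZs, -, -, -, -, -, -, hr⟩ := hNAT n c hR.hn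
  obtain ⟨-, -, -, -, hA0, -, -⟩ := hr p q hR
  have hn0 : (n : ℂ) ≠ 0 := by
    have := hR.hn
    have : n ≠ 0 := by omega
    exact_mod_cast this
  have hB : B n c p q = fun w => ∑ j ∈ Finset.Icc 1 p, xc n c p q j / A n c j * (1 / (w - Z n c j)) := by
    funext w
    unfold B
    refine Finset.sum_congr rfl fun j _ => ?_
    rw [div_eq_mul_one_div (xc n c p q j / A n c j)]
  have h1 : er (fp n c) (B n c p q) z = ∑ j ∈ Finset.Icc 1 p, xc n c p q j * ERB_u n c z j := by
    unfold er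
    rw [hB, ERB_TTsum, ← Finset.sum_sub_distrib]
    refine Finset.sum_congr rfl fun j hj => ?_
    rw [Finset.mem_Icc] at hj
    have hne := hZ (j + 1) (by omega) (by omega)
    rw [hZs j] at hne
    rw [hTSP n c (Z n c j) z hR.hn (hR.ne0 j hj.1 hj.2) hz hne]
    unfold ERB_u
    ring
  have h2 : ∑ j ∈ Finset.Icc 1 p, xc n c p q j * ERB_u n c z j =
      ∑ j ∈ Finset.Icc 1 p, ERB_u n c z j - lam n c p q * ∑ j ∈ Finset.Icc 1 q, ERB_u n c z j := by
    have h3 : Finset.Icc 1 q = (Finset.Icc 1 p).filter fun j => j ≤ q := by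
      ext j
      simp only [Finset.mem_Icc, Finset.mem_filter]
      have := hR.qp
      omega
    rw [h3, Finset.sum_filter, Finset.mul_sum, ← Finset.sum_sub_distrib]
    refine Finset.sum_congr rfl fun j _ => ?_
    unfold xc
    split_ifs <;> ring
  have hq1 := hR.q1
  have hqp := hR.qp
  rw [h1, h2, ERB_E hNAT n c p q hR z hz hZ p (by omega) le_rfl,
    ERB_E hNAT n c p q hR z hz hZ q hq1 (by omega)]
  have e1 : z - c ≠ 0 := sub_ne_zero.2 hz
  have e2 : z - c - Z n c p ^ n ≠ 0 := by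
    intro h
    apply hZ (p + 1) (by omega) le_rfl
    rw [hZs p]
    linear_combination h
  have e3 : z - c - Z n c q ^ n ≠ 0 := by
    intro h
    apply hZ (q + 1) (by omega) (by omega)
    rw [hZs q]
    linear_combination h
  have e4 := hA0 p (by omega) (by omega)
  have e5 := hA0 q hq1 (by omega)
  have e6 := hR.ne0 q hq1 (by omega)
  have hlam : lam n c p q * (Z n c q / ((n : ℂ) * A n c q)) = Z n c p / ((n : ℂ) * A n c p) := by
    unfold lam
    field_simp
  have h5 : lam n c p q * (S n c q / (z - c) -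
      Z n c q / ((n : ℂ) * A n c q) / ((z - c) * (z - c - Z n c q ^ n))) =
      lam n c p q * S n c q / (z - c) -
        Z n c p / ((n : ℂ) * A n c p) / ((z - c) * (z - c - Z n c q ^ n)) := by
    rw [← hlam]; ring
  rw [h5]
  generalize Z n c p / ((n : ℂ) * A n c p) = D
  generalize Z n c p ^ n = a at e2
  generalize Z n c q ^ n = b at e3
  field_simp
  ring

end GR
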